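import Pool.Agent.Helper3.RB.Stm

/-! Package LIM of the board RB (helper3, MP_466853_co): the limit for large blow-ups. -/

set_option autoImplicit false
open Finset

namespace Pool.Agent.Helper43.RB

open Pool.Agent.Helper3.RB Filter Topology

theorem tendsto_sub {n : ℕ} (hn : 1 ≤ n) (a : ℕ) :
    Tendsto (fun m : ℕ => ((n * m - a : ℕ) : ℝ) / m) atTop (𝓝 (n : ℝ)) := by
  have h1 : Tendsto (fun m : ℕ => (n : ℝ) - a / m) atTop (𝓝 ((n : ℝ) - 0)) :=
    tendsto_const_nhds.sub (tendsto_const_div_atTop_nhds_zero_nat (a : ℝ))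
  rw [sub_zero] at h1
  refine h1.congr' ?_
  filter_upwards [eventually_ge_atTop (a + 1)] with m hm
  have h2 : a ≤ n * m := le_trans (by omega) (Nat.le_mul_of_pos_left m hn)
  have h3 : (m : ℝ) ≠ 0 := by
    have : 0 < m := by omega
    positivity
  rw [Nat.cast_sub h2, Nat.cast_mul]
  field_simp

theorem tendsto_choose {n : ℕ} (hn : 1 ≤ n) (a k : ℕ) :
    Tendsto (fun m : ℕ => (((n * m - a).choose k : ℕ) : ℝ) / (m : ℝ) ^ k) atTop
      (𝓝 ((n : ℝ) ^ k / k.factorial)) := by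
  have h1 : Tendsto (fun m : ℕ => ∏ i ∈ range k, (((n * m - (a + i) : ℕ) : ℝ) / m)) atTop
      (𝓝 (∏ _i ∈ range k, (n : ℝ))) :=
    tendsto_finsetProd _ fun i _ => tendsto_sub hn (a + i)
  rw [prod_const, card_range] at h1
  have h2 := h1.div_const (k.factorial : ℝ)
  refine h2.congr fun m => ?_
  have h3 : ((k.factorial : ℕ) : ℝ) * (((n * m - a).choose k : ℕ) : ℝ) =
      ∏ i ∈ range k, ((n * m - (a + i) : ℕ) : ℝ) := by
    rw [← Nat.cast_mul, ← Nat.descFactorial_eq_factorial_mul_choose,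
      Nat.descFactorial_eq_prod_range, Nat.cast_prod]
    exact prod_congr rfl fun i _ => by rw [Nat.sub_sub]
  rw [prod_div_distrib, ← h3, prod_const, card_range]
  have h4 : ((k.factorial : ℕ) : ℝ) ≠ 0 := by
    exact_mod_cast Nat.factorial_ne_zero k
  field_simp

theorem lim : S_LIM := by
  intro κ A D hκ hA hD n h b hb hm bm hhm hbm hmain
  rcases Nat.eq_zero_or_pos n with rfl | hn
  · have hb0 : b = 0 := by simpa using hb
    rw [hb0]
    norm_num
  have hnr : (0 : ℝ) < n := by exact_mod_cast hn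
  have c3 := tendsto_choose hn 3 3
  have c6 := tendsto_choose hn 0 6
  have c4 := tendsto_choose hn 0 4
  have c2 := tendsto_choose hn 4 2
  -- the left and the right hand side, divided by m ^ 6
  have hL : Tendsto (fun m : ℕ => 9 * κ * ((((n * m - 3).choose 3 : ℕ) : ℝ) / (m : ℝ) ^ 3) * h)
      atTop (𝓝 (9 * κ * ((n : ℝ) ^ 3 / (3).factorial) * h)) :=
    (c3.const_mul _).mul_const _
  have hR : Tendsto (fun m : ℕ => 100 * κ * ((((n * m - 0).choose 6 : ℕ) : ℝ) / (m : ℝ) ^ 6) +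
      A * ((((n * m - 0).choose 4 : ℕ) : ℝ) / (m : ℝ) ^ 4) * (n / m) +
      D * ((((n * m - 4).choose 2 : ℕ) : ℝ) / (m : ℝ) ^ 2) * b) atTop
      (𝓝 (100 * κ * ((n : ℝ) ^ 6 / (6).factorial) + A * ((n : ℝ) ^ 4 / (4).factorial) * 0 +
        D * ((n : ℝ) ^ 2 / (2).factorial) * b)) :=
    ((c6.const_mul _).add ((c4.const_mul _).mul
      (tendsto_const_div_atTop_nhds_zero_nat (n : ℝ)))).add ((c2.const_mul _).mul_const _)
  have hle : 9 * κ * ((n : ℝ) ^ 3 / (3).factorial) * h ≤ 100 * κ * ((n : ℝ) ^ 6 / (6).factorial) +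
      A * ((n : ℝ) ^ 4 / (4).factorial) * 0 + D * ((n : ℝ) ^ 2 / (2).factorial) * b := by
    refine le_of_tendsto_of_tendsto hL hR ?_
    filter_upwards [eventually_ge_atTop 5] with m hm5
    have hnm : 5 ≤ n * m := hm5.trans (Nat.le_mul_of_pos_left m hn)
    have hmp : (0 : ℝ) < m := by
      have : 0 < m := by omega
      exact_mod_cast this
    have h1 := hmain m hnm
    have h2 : ((m : ℝ) ^ 3 * h) ≤ hm m := by exact_mod_cast hhm m
    have h3 : ((bm m : ℕ) : ℝ) ≤ (m : ℝ) ^ 4 * b := by exact_mod_cast hbm m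
    rw [Nat.sub_zero]
    set C3 := (((n * m - 3).choose 3 : ℕ) : ℝ) with hC3
    set C6 := (((n * m).choose 6 : ℕ) : ℝ) with hC6
    set C4 := (((n * m).choose 4 : ℕ) : ℝ) with hC4
    set C2 := (((n * m - 4).choose 2 : ℕ) : ℝ) with hC2
    have p3 : 0 ≤ C3 := Nat.cast_nonneg _
    have p2 : 0 ≤ C2 := Nat.cast_nonneg _
    have h4 : 9 * κ * C3 * ((m : ℝ) ^ 3 * h) ≤ 100 * κ * C6 + A * C4 * ((n * m : ℕ) : ℝ) +
        D * C2 * ((m : ℝ) ^ 4 * b) := by
      have e1 : 9 * κ * C3 * ((m : ℝ) ^ 3 * h) ≤ 9 * κ * C3 * hm m :=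
        mul_le_mul_of_nonneg_left h2 (by positivity)
      have e2 : D * C2 * (bm m : ℝ) ≤ D * C2 * ((m : ℝ) ^ 4 * b) :=
        mul_le_mul_of_nonneg_left h3 (by positivity)
      linarith
    have h5 : (9 * κ * (C3 / (m : ℝ) ^ 3) * h) * (m : ℝ) ^ 6 ≤
        (100 * κ * (C6 / (m : ℝ) ^ 6) + A * (C4 / (m : ℝ) ^ 4) * (n / m) +
          D * (C2 / (m : ℝ) ^ 2) * b) * (m : ℝ) ^ 6 := by
      have e1 : (9 * κ * (C3 / (m : ℝ) ^ 3) * h) * (m : ℝ) ^ 6 =
          9 * κ * C3 * ((m : ℝ) ^ 3 * h) := by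
        field_simp
      have e2 : (100 * κ * (C6 / (m : ℝ) ^ 6) + A * (C4 / (m : ℝ) ^ 4) * (n / m) +
          D * (C2 / (m : ℝ) ^ 2) * b) * (m : ℝ) ^ 6 =
          100 * κ * C6 + A * C4 * (n * m) + D * C2 * ((m : ℝ) ^ 4 * b) := by
        field_simp
      rw [e1, e2]
      push_cast at h4
      exact h4
    exact le_of_mul_le_mul_right h5 (pow_pos hmp 6)
  norm_num [Nat.factorial] at hle
  -- divide by n ^ 2 and κ
  have h6 : (n : ℝ) ^ 2 * (9 * κ * (n * h / 6)) ≤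
      (n : ℝ) ^ 2 * (100 * κ * ((n : ℝ) ^ 4 / 720) + D * b / 2) := by
    nlinarith
  have h7 := le_of_mul_le_mul_left h6 (pow_pos hnr 2)
  have h8 : 5 / 54 * (n : ℝ) ^ 4 + D / (3 * κ) * b =
      (100 * κ * ((n : ℝ) ^ 4 / 720) + D * b / 2) * (6 / (9 * κ)) := by
    field_simp
    ring
  have h9 : (n : ℝ) * h = (9 * κ * (n * h / 6)) * (6 / (9 * κ)) := by
    field_simp
  rw [h8, h9]
  exact mul_le_mul_of_nonneg_right h7 (by positivity)

end Pool.Agent.Helper43.RB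

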